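import Pool.Agent.Helper77.OF4.St

/-!
# MP_7a9ddc_co, project OF4, module FO: odd faces after a folding
-/

set_option autoImplicit false

namespace Pool.Agent.Helper84.OF4.FO

open Equiv Equiv.Perm Pool.Agent.Helper35.PM Pool.Agent.Helper77.HY Pool.Agent.Helper77.OF4

theorem fold_φ {V D : Type} [Finite D] [DecidableEq V] [DecidableEq D] (M : PMap V D) (d : D)
    (h : M.t d ≠ M.t (M.φ (M.φ d))) :
    (fold M d h).φ = M.φ * swap (M.φ.symm d) (M.φ d) := by
  have ha : M.φ.symm d = M.ι (M.r.symm d) := by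
    rw [Equiv.symm_apply_eq, PMap.φ_apply, M.inv, M.r.apply_symm_apply]
  apply Equiv.ext
  intro e
  rw [ha]
  show M.r (swap (M.r.symm d) (M.ι (M.φ d)) (M.ι e)) =
    M.r (M.ι (swap (M.ι (M.r.symm d)) (M.φ d) e))
  congr 1
  by_cases h1 : e = M.ι (M.r.symm d)
  · rw [h1, M.inv, swap_apply_left, swap_apply_left]
  · by_cases h2 : e = M.φ d
    · rw [h2, swap_apply_right, swap_apply_right, M.inv]
    · rw [swap_apply_of_ne_of_ne h1 h2, swap_apply_of_ne_of_ne]
      · intro h3
        apply h1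
        rw [← h3, M.inv]
      · intro h3
        apply h2
        rw [← M.inv e, h3, M.inv]

theorem main (hP2 : StP2) : StFo := by
  intro V D _ _ _ M d h k hOG
  have h1 : M.φ d ≠ d := by
    intro h0
    apply hOG.1 d
    rw [← t_φ M d, h0]
  have h2 : M.φ (M.φ d) ≠ d := by
    intro h0
    apply h
    rw [h0]
  have h3 : M.φ (M.φ d) ≠ M.φ d := fun h0 => h1 (M.φ.injective h0)
  obtain ⟨e1, e2, e3, e4⟩ := hP2 D M.φ d h1 h2
  have hf := fold_φ M d h
  rw [← hf] at e1 e2 e3 e4
  have hodd : ∀ e, Odd (Function.minimalPeriod (fold M d h).φ e) → e ≠ d ∧ e ≠ M.φ d ∧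
      Odd (Function.minimalPeriod M.φ e) := by
    intro e he
    have key : ∀ x y : D, x ≠ y → (fold M d h).φ x = y → (fold M d h).φ y = x →
        ¬ Odd (Function.minimalPeriod (fold M d h).φ x) := by
      intro x y hxy hx hy ho
      have hp : Function.IsPeriodicPt (fold M d h).φ 2 x := by
        show (fold M d h).φ ((fold M d h).φ x) = x
        rw [hx, hy]
      have hd := hp.minimalPeriod_dvd
      have hle := Nat.le_of_dvd (by norm_num) hd
      obtain ⟨m, hm⟩ := ho
      have h5 : Function.minimalPeriod (fold M d h).φ x = 1 := by omega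
      have h6 := Function.minimalPeriod_eq_one_iff_isFixedPt.1 h5
      exact hxy (h6.symm.trans hx)
    have n1 : e ≠ d := by
      rintro rfl
      exact key _ _ h1.symm e1 e2 he
    have n2 : e ≠ M.φ d := by
      rintro rfl
      exact key _ _ h1 e2 e1 he
    exact ⟨n1, n2, (e4 e n1 n2).1 he⟩
  refine ⟨?_, hodd, e3⟩
  rintro ⟨O, hO, hO2⟩
  refine ⟨O.image (fun o => if o = d ∨ o = M.φ d then M.φ (M.φ d) else o),
    Finset.card_image_le.trans hO, ?_⟩
  intro e he
  obtain ⟨n1, n2, n3⟩ := hodd e he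
  obtain ⟨o, ho, hs⟩ := hO2 e n3
  refine ⟨_, Finset.mem_image_of_mem _ ho, ?_⟩
  by_cases hc : o = d ∨ o = M.φ d
  · show (fold M d h).φ.SameCycle (if o = d ∨ o = M.φ d then M.φ (M.φ d) else o) e
    rw [if_pos hc]
    apply e3 _ _ h2 h3 n1 n2
    rw [sameCycle_apply_left]
    rcases hc with hc | hc
    · rw [sameCycle_apply_left, ← hc]
      exact hs
    · rw [← hc]
      exact hs
  · show (fold M d h).φ.SameCycle (if o = d ∨ o = M.φ d then M.φ (M.φ d) else o) e
    rw [if_neg hc]
    rw [not_or] at hc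
    exact e3 _ _ hc.1 hc.2 n1 n2 hs

end Pool.Agent.Helper84.OF4.FO
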